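import Pool.Agent.Q91.PT.AllM

/-!
Mean area of square-lattice self-avoiding polygons: `A_n ≥ (1 + δ) n` for large `n` and a constant `δ > 0`
(the known lower bound is `n - 1`); the polygons with area at most `(1 + δ) n` are exponentially rare; the variance
of the area is at least `δ n`.

Method: Kesten's pattern theorem (modules `Pool/Agent/Q91/PT`) gives a positive density of independently flippable
corners; the polygon with all of them flipped to the inside has area at least `n - 1`.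
-/

set_option autoImplicit false

open Filter Topology

namespace Pool.Agent.Results.MP_2250b1_co.AboveTrivialBound

/-- a closed nearest-neighbour loop on `ℤ²` with `m` steps, rooted at the origin and oriented,
that visits no vertex twice -/
def IsLoop (m : ℕ) (f : ZMod m → ℤ × ℤ) : Prop :=
  f 0 = 0 ∧ Function.Injective f ∧
    ∀ i : ZMod m, |(f (i + 1)).1 - (f i).1| + |(f (i + 1)).2 - (f i).2| = 1

/-- the edge from `f k` to `f (k+1)` is horizontal, joins the columns `x = a` and `x = a + 1`, and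
has height larger than `b`: it lies above the unit cell `[a, a+1] × [b, b+1]` -/
def Above (m : ℕ) (f : ZMod m → ℤ × ℤ) (a b : ℤ) (k : ZMod m) : Prop :=
  (((f k).1 = a ∧ (f (k + 1)).1 = a + 1) ∨ ((f k).1 = a + 1 ∧ (f (k + 1)).1 = a)) ∧ b < (f k).2

/-- the unit cell `[a, a+1] × [b, b+1]` is enclosed by the loop: the vertical ray from the cell
upwards crosses an odd number of edges -/
def Encl (m : ℕ) (f : ZMod m → ℤ × ℤ) (c : ℤ × ℤ) : Prop :=
  Odd (Nat.card {k : ZMod m // Above m f c.1 c.2 k})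

/-- the area: the number of unit cells enclosed by the loop -/
noncomputable def area (m : ℕ) (f : ZMod m → ℤ × ℤ) : ℕ := Nat.card {c : ℤ × ℤ // Encl m f c}

/-- expectation under the uniform law on the (rooted, oriented) self-avoiding polygons of
perimeter `2 n` -/
noncomputable def E (n : ℕ) (F : (ZMod (2 * n) → ℤ × ℤ) → ℝ) : ℝ :=
  (∑ᶠ f ∈ {f : ZMod (2 * n) → ℤ × ℤ | IsLoop (2 * n) f}, F f) /
    ({f : ZMod (2 * n) → ℤ × ℤ | IsLoop (2 * n) f}.ncard : ℝ)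

lemma pl_eq (n : ℕ) (T : Set ℤ) :
    Pool.Agent.Q91.PT.pl n Set.univ T =
      ({f : ZMod (2 * n) → ℤ × ℤ | IsLoop (2 * n) f ∧ (area (2 * n) f : ℤ) ∈ T}.ncard : ℝ) /
        (4 * (n : ℝ)) := by
  unfold Pool.Agent.Q91.PT.pl Pool.Agent.Q91.PT.LC
  congr 2
  rw [← Nat.card_coe_set_eq]
  apply Nat.card_congr
  apply Equiv.subtypeEquivRight
  intro f
  constructor
  · rintro ⟨h0, _, h2⟩
    exact ⟨h0, h2⟩
  · rintro ⟨h0, h2⟩
    exact ⟨h0, Set.mem_univ _, h2⟩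

theorem core (hf4 : Pool.Agent.Q91.PT.S_fn4) : ∃ δ C : ℝ, 0 < δ ∧ 0 < C ∧
    (∀ n : ℕ, 2 ≤ n →
      ({f : ZMod (2 * n) → ℤ × ℤ | IsLoop (2 * n) f ∧ (area (2 * n) f : ℝ) ≤ (1 + δ) * n}.ncard : ℝ) ≤
        C * Real.exp (-δ * n) * {f : ZMod (2 * n) → ℤ × ℤ | IsLoop (2 * n) f}.ncard) ∧
    (∀ᶠ n : ℕ in atTop, (1 + δ) * n ≤ E n (fun f => (area (2 * n) f : ℝ))) ∧
    ∀ᶠ n : ℕ in atTop, ∀ y : ℝ, δ * n ≤ E n (fun f => ((area (2 * n) f : ℝ) - y) ^ 2) := by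
  obtain ⟨δ, C, hδ, hC, h1, h2, h3⟩ := hf4
  refine ⟨δ, C, hδ, hC, ?_, h2, h3⟩
  intro n hn
  have h := h1 n hn
  have hn0 : (0:ℝ) < 4 * (n:ℝ) := by
    have : (0:ℝ) < n := by exact_mod_cast (by omega : 0 < n)
    positivity
  rw [pl_eq, pl_eq, ← mul_div_assoc, div_le_div_iff_of_pos_right hn0] at h
  have e1 : {f : ZMod (2 * n) → ℤ × ℤ | IsLoop (2 * n) f ∧
      (area (2 * n) f : ℤ) ∈ {a : ℤ | (a : ℝ) ≤ (1 + δ) * n}} =
      {f : ZMod (2 * n) → ℤ × ℤ | IsLoop (2 * n) f ∧ (area (2 * n) f : ℝ) ≤ (1 + δ) * n} := by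
    ext f
    simp only [Set.mem_ofPred_eq, Int.cast_natCast]
  have e2 : {f : ZMod (2 * n) → ℤ × ℤ | IsLoop (2 * n) f ∧
      (area (2 * n) f : ℤ) ∈ (Set.univ : Set ℤ)} =
      {f : ZMod (2 * n) → ℤ × ℤ | IsLoop (2 * n) f} := by
    ext f
    simp only [Set.mem_ofPred_eq, Set.mem_univ, and_true]
  rw [e1, e2] at h
  exact h

/-- **Theorem.** Let `A_n` be the area of the uniform self-avoiding polygon of perimeter `2n`.  There are
`δ, C > 0` with: (1) `P(A_n ≤ (1 + δ) n) ≤ C e^(-δ n)` for all `n ≥ 2`; (2) `E[A_n] ≥ (1 + δ) n` for all large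
`n`; (3) `Var(A_n) ≥ δ n` for all large `n` (even `E[(A_n - y)²] ≥ δ n` for all real `y`). -/
theorem result : ∃ δ C : ℝ, 0 < δ ∧ 0 < C ∧
    (∀ n : ℕ, 2 ≤ n →
      ({f : ZMod (2 * n) → ℤ × ℤ | IsLoop (2 * n) f ∧ (area (2 * n) f : ℝ) ≤ (1 + δ) * n}.ncard : ℝ) ≤
        C * Real.exp (-δ * n) * {f : ZMod (2 * n) → ℤ × ℤ | IsLoop (2 * n) f}.ncard) ∧
    (∀ᶠ n : ℕ in atTop, (1 + δ) * n ≤ E n (fun f => (area (2 * n) f : ℝ))) ∧
    ∀ᶠ n : ℕ in atTop, ∀ y : ℝ, δ * n ≤ E n (fun f => ((area (2 * n) f : ℝ) - y) ^ 2) :=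
  core Pool.Agent.Q91.PT.c_fn4

end Pool.Agent.Results.MP_2250b1_co.AboveTrivialBound
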