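import Pool.Agent.Q78.UW.ArW3

set_option autoImplicit false

/-!
# The area of self-avoiding polygons on the square lattice in a finite region or a random domain
-/

namespace Pool.Agent.Results.MP_2250b1_co.AreaInRegions

open MeasureTheory Filter Topology

/-- a closed nearest-neighbour loop on `ℤ²` with `m` steps that visits no vertex twice (rooted and
oriented, anywhere in the plane) -/
def IsPoly (m : ℕ) (f : ZMod m → ℤ × ℤ) : Prop :=
  Function.Injective f ∧ ∀ i : ZMod m, |(f (i + 1)).1 - (f i).1| + |(f (i + 1)).2 - (f i).2| = 1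

/-- the edge from `f k` to `f (k + 1)` is horizontal, over the column `[a, a + 1]`, and above the
height `b` -/
def Above (m : ℕ) (f : ZMod m → ℤ × ℤ) (a b : ℤ) (k : ZMod m) : Prop :=
  (((f k).1 = a ∧ (f (k + 1)).1 = a + 1) ∨ ((f k).1 = a + 1 ∧ (f (k + 1)).1 = a)) ∧ b < (f k).2

/-- the unit cell `[a, a + 1] × [b, b + 1]` is enclosed: the number of edges above it is odd -/
def Encl (m : ℕ) (f : ZMod m → ℤ × ℤ) (c : ℤ × ℤ) : Prop :=
  Odd (Nat.card {k : ZMod m // Above m f c.1 c.2 k})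

/-- the area of a polygon: the number of unit cells it encloses -/
noncomputable def area (m : ℕ) (f : ZMod m → ℤ × ℤ) : ℕ := Nat.card {c : ℤ × ℤ // Encl m f c}

/-- the number of self-avoiding polygons of perimeter `2n` on `ℤ²` up to translation: the number
of loops with `2n` steps rooted at the origin, divided by `4n` (the choices of the starting point
and of the orientation) -/
noncomputable def p (n : ℕ) : ℝ :=
  (Nat.card {f : ZMod (2 * n) → ℤ × ℤ // f 0 = 0 ∧ IsPoly (2 * n) f} : ℝ) / (4 * (n : ℝ))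

/-- the number of self-avoiding polygons of perimeter `2n` with all their vertices in `Λ` -/
noncomputable def N (Λ : Finset (ℤ × ℤ)) (n : ℕ) : ℝ :=
  (Nat.card {f : ZMod (2 * n) → ℤ × ℤ // IsPoly (2 * n) f ∧ ∀ i, f i ∈ Λ} : ℝ) / (4 * (n : ℝ))

/-- the sum of `area ^ q` over them -/
noncomputable def S (Λ : Finset (ℤ × ℤ)) (q : ℝ) (n : ℕ) : ℝ :=
  (∑ᶠ f : {f : ZMod (2 * n) → ℤ × ℤ // IsPoly (2 * n) f ∧ ∀ i, f i ∈ Λ},
    (area (2 * n) f.1 : ℝ) ^ q) / (4 * (n : ℝ))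

/-- the size of the error for the region `Λ` -/
noncomputable def err (Λ : Finset (ℤ × ℤ)) (n : ℕ) : ℝ :=
  √((Real.log (Λ.card * p n / N Λ n) + Real.log n ^ 2) / n)

variable {Ω : Type} [MeasurableSpace Ω]

/-- the probability that the uniform polygon of perimeter `2n` rooted at the origin lies in an
independent random domain with law `ν` -/
noncomputable def Q (ν : Measure Ω) (D : Ω → ℤ × ℤ → Prop) (n : ℕ) : ℝ :=
  (∫ ω, (Nat.card {f : ZMod (2 * n) → ℤ × ℤ //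
    (f 0 = 0 ∧ IsPoly (2 * n) f) ∧ ∀ i, D ω (f i)} : ℝ) ∂ν) / (4 * n * p n)

/-- the mean of `area ^ q` over the event that this polygon lies in the domain -/
noncomputable def T (ν : Measure Ω) (D : Ω → ℤ × ℤ → Prop) (q : ℝ) (n : ℕ) : ℝ :=
  (∫ ω, (∑ᶠ f : {f : ZMod (2 * n) → ℤ × ℤ // (f 0 = 0 ∧ IsPoly (2 * n) f) ∧ ∀ i, D ω (f i)},
    (area (2 * n) f.1 : ℝ) ^ q) ∂ν) / (4 * n * p n)

/-- random domains -/
def IsDomain (D : Ω → ℤ × ℤ → Prop) : Prop := ∀ x, MeasurableSet {ω | D ω x}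

/-- the size of the error for a random domain -/
noncomputable def errD (ν : Measure Ω) (D : Ω → ℤ × ℤ → Prop) (n : ℕ) : ℝ :=
  √((Real.log (1 / Q ν D n) + Real.log n ^ 2) / n)

open TH966.AK Q78.UW Q78.UW.Po Pool.Agent.H924P

lemma p_eq (n : ℕ) : p n = H981.PP n := rfl

lemma area_eq (m : ℕ) (f : ZMod m → ℤ × ℤ) : area m f = Pool.Agent.H924P.area m f := rfl

lemma Q_eq (ν : Measure Ω) (D : Ω → ℤ × ℤ → Prop) {n : ℕ} (hn : 1 ≤ n) : Q ν D n = Pl ν D n := by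
  unfold Q Pl Fp Q78.UR.FF
  rw [p_eq]
  congr 1
  congr 1
  funext ω
  rw [← root_card' (2 * n) (2 * n - 1) (by omega) (D ω)]
  rfl

/-- a region as a random domain -/
lemma N_eq {Λ Λ' : Finset (ℤ × ℤ)} (h : Λ.Nonempty) (hsub : Λ' ⊆ Λ) {n : ℕ} (hn : 1 ≤ n) :
    N Λ' n = Λ.card * @Fp (ℤ × ℤ) ⊤ (uni Λ) (Dr Λ') n / (4 * n) := by
  unfold N Fp
  rw [← reg_card' (2 * n) (2 * n - 1) (by omega) h hsub]
  rfl

lemma Pl_eq {Λ : Finset (ℤ × ℤ)} (h : Λ.Nonempty) {n : ℕ} (hn : 1 ≤ n) :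
    @Pl (ℤ × ℤ) ⊤ (uni Λ) (Dr Λ) n = N Λ n / (Λ.card * p n) := by
  rw [N_eq h (Finset.Subset.refl _) hn, p_eq]
  unfold Pl
  have h0 : (0 : ℝ) < Λ.card := by exact_mod_cast h.card_pos
  have h1 : (0 : ℝ) < n := by exact_mod_cast hn
  rcases eq_or_ne (H981.PP n) 0 with h2 | h2
  · rw [h2]; simp
  · field_simp

lemma S_eq {Λ Λ' : Finset (ℤ × ℤ)} (h : Λ.Nonempty) (hsub : Λ' ⊆ Λ) (q : ℝ) {n : ℕ} (hn : 2 ≤ n) :
    S Λ' q n = Λ.card * @XX (ℤ × ℤ) ⊤ Q78.UR.Sq.A (uni Λ) (fun x => RD (Dr Λ' x))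
      (fun _ => aq q) (2 * n - 1) / (4 * n) := by
  rw [← reg_sum' (2 * n) (2 * n - 1) (by omega) h hsub
    (fun m f => (max 1 (Pool.Agent.H924P.area m f : ℝ)) ^ q) (fun _ => aq q) (fun x k g => by
      unfold aq
      rw [arP_ofFn, ← area_shift (k + 1) x g])]
  unfold S
  congr 1
  refine finsum_congr fun f => ?_
  have h1 : 1 ≤ Pool.Agent.H924P.area (2 * n) f.1 := one_le_area (by omega) f.2.1
  rw [max_eq_right (by exact_mod_cast h1), area_eq]

lemma T_eq (ν : Measure Ω) (D : Ω → ℤ × ℤ → Prop) (q : ℝ) {n : ℕ} (hn : 2 ≤ n) :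
    T ν D q n = XX Q78.UR.Sq.A ν (fun ω => RD (D ω)) (fun _ => aq q) (2 * n - 1) /
      (4 * n * H981.PP n) := by
  unfold T XX
  rw [p_eq]
  congr 1
  congr 1
  funext ω
  rw [← root_sum (2 * n) (2 * n - 1) (by omega) (D ω)
    (fun m f => (max 1 (Pool.Agent.H924P.area m f : ℝ)) ^ q) (aq q) (fun k g => by
      unfold aq
      rw [arP_ofFn])]
  have e : ∀ f : {f : ZMod (2 * n) → ℤ × ℤ // (f 0 = 0 ∧ IsPoly (2 * n) f) ∧ ∀ i, D ω (f i)},
      (area (2 * n) f.1 : ℝ) ^ q = (max 1 (Pool.Agent.H924P.area (2 * n) f.1 : ℝ)) ^ q := by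
    intro f
    have h1 : 1 ≤ Pool.Agent.H924P.area (2 * n) f.1 := one_le_area (by omega) f.2.1.2
    rw [max_eq_right (by exact_mod_cast h1), area_eq]
  rw [finsum_congr e]
  rfl

/-- **Main result.** -/
theorem result : ∀ m : ℕ, ∃ (C δ : ℝ) (n₀ : ℕ), 0 < C ∧ 0 < δ ∧
    (∀ Λ : Finset (ℤ × ℤ), Λ.Nonempty → ∀ n, n₀ ≤ n → Real.exp (-δ * n) * (Λ.card * p n) ≤ N Λ n →
      ∀ q : ℝ, 0 ≤ q → q ≤ m → 0 < S Λ q n / N Λ n ∧
        |(S Λ q (n + 1) / N Λ (n + 1)) / (S Λ q n / N Λ n) - 1| ≤ C * err Λ n ∧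
        ∀ Λ' ⊆ Λ, |S Λ' q (n + 1) / S Λ q (n + 1) - S Λ' q n / S Λ q n| ≤ C * err Λ n) ∧
    (∀ (Ω : Type) [MeasurableSpace Ω] (ν : Measure Ω) [IsProbabilityMeasure ν]
      (D : Ω → ℤ × ℤ → Prop), IsDomain D → ∀ n, n₀ ≤ n → Real.exp (-δ * n) ≤ Q ν D n →
      ∀ q : ℝ, 0 ≤ q → q ≤ m → 0 < T ν D q n / Q ν D n ∧
        |(T ν D q (n + 1) / Q ν D (n + 1)) / (T ν D q n / Q ν D n) - 1| ≤ C * errD ν D n ∧
        ∀ D' : Ω → ℤ × ℤ → Prop, IsDomain D' → (∀ ω x, D' ω x → D ω x) →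
          |T ν D' q (n + 1) / T ν D q (n + 1) - T ν D' q n / T ν D q n| ≤ C * errD ν D n) := by
  intro m
  obtain ⟨C, δ, N1, hC, hδ, hN1, h1⟩ := area_main m
  refine ⟨C, δ, N1, hC, hδ, ?_, ?_⟩
  · intro Λ hne n hn hN q hq0 hqm
    have hn2 : 2 ≤ n := by omega
    have hn0 : (0 : ℝ) < n := by exact_mod_cast (show 0 < n by omega)
    have hcard : (0 : ℝ) < Λ.card := by exact_mod_cast hne.card_pos
    have hp0 : 0 < p n := PP_pos hn2
    let _ : MeasurableSpace (ℤ × ℤ) := ⊤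
    have hprob : IsProbabilityMeasure (uni Λ) := uni_prob hne
    have hD : ∀ x, MeasurableSet {ω : ℤ × ℤ | Dr Λ ω x} := fun _ => trivial
    have hpl : Pl (uni Λ) (Dr Λ) n = N Λ n / (Λ.card * p n) := Pl_eq hne (by omega)
    have hq : Real.exp (-δ * n) ≤ Pl (uni Λ) (Dr Λ) n := by
      rw [hpl, le_div_iff₀ (by positivity)]
      exact hN
    have herrN : err Λ n = √((Real.log (1 / Pl (uni Λ) (Dr Λ) n) + Real.log n ^ 2) / n) := by
      unfold err
      rw [hpl, one_div_div]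
    obtain ⟨g1, g2⟩ := h1 (ℤ × ℤ) (uni Λ) (Dr Λ) hD n hn hq
    obtain ⟨g3, g4, g5⟩ := g2 q hq0 hqm
    rw [← herrN] at g4
    have hn1 : (0 : ℝ) < 4 * ((n + 1 : ℕ) : ℝ) := by positivity
    rw [S_eq hne (Finset.Subset.refl _) q hn2, S_eq hne (Finset.Subset.refl _) q (by omega),
      N_eq hne (Finset.Subset.refl _) (by omega), N_eq hne (Finset.Subset.refl _) (by omega),
      div_div_div_cancel_right₀ hn1.ne', div_div_div_cancel_right₀ (by positivity),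
      mul_div_mul_left _ _ hcard.ne', mul_div_mul_left _ _ hcard.ne']
    refine ⟨div_pos g3 g1, g4, fun Λ' hsub => ?_⟩
    have g6 := g5 (Dr Λ') (fun _ => trivial) (fun ω x h => hsub h)
    rw [← herrN] at g6
    rw [S_eq hne hsub q hn2, S_eq hne hsub q (by omega),
      div_div_div_cancel_right₀ hn1.ne', div_div_div_cancel_right₀ (by positivity),
      mul_div_mul_left _ _ hcard.ne', mul_div_mul_left _ _ hcard.ne']
    exact g6
  · intro Ω _ ν _ D hD n hn hQ q hq0 hqm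
    have hn2 : 2 ≤ n := by omega
    have hn0 : (0 : ℝ) < n := by exact_mod_cast (show 0 < n by omega)
    have herrN : errD ν D n = √((Real.log (1 / Pl ν D n) + Real.log n ^ 2) / n) := by
      unfold errD
      rw [Q_eq ν D (by omega)]
    rw [Q_eq ν D (by omega)] at hQ
    obtain ⟨g1, g2⟩ := h1 Ω ν D hD n hn hQ
    obtain ⟨g3, g4, g5⟩ := g2 q hq0 hqm
    rw [← herrN] at g4
    have hP0 := PP_pos hn2
    have hP1 := PP_pos (show 2 ≤ n + 1 by omega)
    have hn1 : (0 : ℝ) < 4 * ((n + 1 : ℕ) : ℝ) * H981.PP (n + 1) := by positivity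
    have hn3 : (0 : ℝ) < 4 * (n : ℝ) * H981.PP n := by positivity
    rw [T_eq ν D q hn2, T_eq ν D q (by omega), Q_eq ν D (by omega), Q_eq ν D (by omega)]
    unfold Pl
    rw [div_div_div_cancel_right₀ hn1.ne', div_div_div_cancel_right₀ hn3.ne']
    refine ⟨div_pos g3 g1, g4, fun D' hD' hsub => ?_⟩
    have g6 := g5 D' hD' hsub
    rw [← herrN] at g6
    rw [T_eq ν D' q hn2, T_eq ν D' q (by omega), div_div_div_cancel_right₀ hn1.ne',
      div_div_div_cancel_right₀ hn3.ne']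
    exact g6

end Pool.Agent.Results.MP_2250b1_co.AreaInRegions
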