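import Pool.Agent.Q78.UW.PolyEx

set_option autoImplicit false

/-!
# The area of self-avoiding polygons in a random domain: all perimeters from sparse perimeters
-/

namespace Pool.Agent.Results.MP_2250b1_co.AreaSparsePerimeters

open MeasureTheory Filter Topology

/-- the number of `n`-step self-avoiding walks on `ℤ²` started at the origin -/
noncomputable def c (n : ℕ) : ℕ :=
  Nat.card {f : Fin (n + 1) → ℤ × ℤ // f 0 = 0 ∧ Function.Injective f ∧
    ∀ i : Fin n, |(f i.succ).1 - (f i.castSucc).1| + |(f i.succ).2 - (f i.castSucc).2| = 1}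

/-- a closed nearest-neighbour loop on `ℤ²` with `m` steps that visits no vertex twice (rooted and
oriented, anywhere in the plane) -/
def IsPoly (m : ℕ) (f : ZMod m → ℤ × ℤ) : Prop :=
  Function.Injective f ∧ ∀ i : ZMod m, |(f (i + 1)).1 - (f i).1| + |(f (i + 1)).2 - (f i).2| = 1

/-- the edge from `f k` to `f (k + 1)` is horizontal, over the column `[a, a + 1]`, and above the
height `b` -/
def Above (m : ℕ) (f : ZMod m → ℤ × ℤ) (a b : ℤ) (k : ZMod m) : Prop :=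
  (((f k).1 = a ∧ (f (k + 1)).1 = a + 1) ∨ ((f k).1 = a + 1 ∧ (f (k + 1)).1 = a)) ∧ b < (f k).2

/-- the unit cell `[a, a + 1] × [b, b + 1]` is enclosed: the number of edges above it is odd -/
def Encl (m : ℕ) (f : ZMod m → ℤ × ℤ) (c : ℤ × ℤ) : Prop :=
  Odd (Nat.card {k : ZMod m // Above m f c.1 c.2 k})

/-- the area of a polygon: the number of unit cells it encloses -/
noncomputable def area (m : ℕ) (f : ZMod m → ℤ × ℤ) : ℕ := Nat.card {c : ℤ × ℤ // Encl m f c}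

variable {Ω : Type} [MeasurableSpace Ω]

/-- the mean number of loops with `2n` steps rooted at the origin in a random domain with law `ν`
(each polygon through the origin gives two of them) -/
noncomputable def F (ν : Measure Ω) (D : Ω → ℤ × ℤ → Prop) (n : ℕ) : ℝ :=
  ∫ ω, (Nat.card {f : ZMod (2 * n) → ℤ × ℤ //
    (f 0 = 0 ∧ IsPoly (2 * n) f) ∧ ∀ i, D ω (f i)} : ℝ) ∂ν

/-- the mean of the sum of `area ^ q` over these loops -/
noncomputable def T (ν : Measure Ω) (D : Ω → ℤ × ℤ → Prop) (q : ℝ) (n : ℕ) : ℝ :=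
  ∫ ω, (∑ᶠ f : {f : ZMod (2 * n) → ℤ × ℤ // (f 0 = 0 ∧ IsPoly (2 * n) f) ∧ ∀ i, D ω (f i)},
    (area (2 * n) f.1 : ℝ) ^ q) ∂ν

/-- the mean of `area ^ q`, given that the polygon lies in the domain -/
noncomputable def M (ν : Measure Ω) (D : Ω → ℤ × ℤ → Prop) (q : ℝ) (n : ℕ) : ℝ :=
  T ν D q n / F ν D n

/-- random domains -/
def IsDomain (D : Ω → ℤ × ℤ → Prop) : Prop := ∀ x, MeasurableSet {ω | D ω x}

/-- the normalised mean number of loops -/
noncomputable def Y (μ : ℝ) (ν : Measure Ω) (D : Ω → ℤ × ℤ → Prop) (n : ℕ) : ℝ :=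
  F ν D n / μ ^ (2 * n)

/-- logarithms of normalisations, such as `β log n + a` -/
def IsSlow (ψ : ℕ → ℝ) : Prop :=
  ∃ B : ℝ, ∀ m n : ℕ, 1 ≤ m → m ≤ n → |ψ n - ψ m| ≤ B * (((n : ℝ) - m) / m)

/-- `S` meets `[n, n + δ √(n E n)]` for all large `n` -/
def Meets (S : Set ℕ) (δ : ℝ) (E : ℕ → ℝ) : Prop :=
  ∀ᶠ n : ℕ in atTop, ∃ k ∈ S, n ≤ k ∧ (k : ℝ) ≤ n + δ * √(n * E n)

open TH966.AK Q78.UW Q78.UW.Po Pool.Agent.H924P

lemma c_eq (n : ℕ) : (c n : ℝ) = H981.cr' n := by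
  rw [H981.cr'_eq]
  unfold c H981.C H981.IsSAW
  congr 1
  apply Nat.card_congr
  apply Equiv.subtypeEquivRight
  intro f
  constructor
  · rintro ⟨h0, h1, h2⟩
    exact ⟨h0, h2, h1⟩
  · rintro ⟨h0, h2, h1⟩
    exact ⟨h0, h1, h2⟩

lemma F_eq (ν : Measure Ω) (D : Ω → ℤ × ℤ → Prop) {n : ℕ} (hn : 1 ≤ n) :
    F ν D n = Fp ν D n := by
  unfold F Fp Q78.UR.FF
  congr 1
  funext ω
  rw [← root_card' (2 * n) (2 * n - 1) (by omega) (D ω)]
  rfl

lemma Y_eq (ν : Measure Ω) (D : Ω → ℤ × ℤ → Prop) {n : ℕ} (hn : 1 ≤ n) :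
    Y H981.mu ν D n = Yp ν D n := by
  unfold Y Yp
  rw [F_eq ν D hn]

lemma area_eq (m : ℕ) (f : ZMod m → ℤ × ℤ) : area m f = Pool.Agent.H924P.area m f := rfl

lemma T_eq (ν : Measure Ω) (D : Ω → ℤ × ℤ → Prop) (q : ℝ) {n : ℕ} (hn : 2 ≤ n) :
    T ν D q n = XX Q78.UR.Sq.A ν (fun ω => RD (D ω)) (fun _ => aq q) (2 * n - 1) := by
  unfold T XX
  congr 1
  funext ω
  rw [← root_sum (2 * n) (2 * n - 1) (by omega) (D ω)
    (fun m f => (max 1 (Pool.Agent.H924P.area m f : ℝ)) ^ q) (aq q) (fun k g => by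
      unfold aq
      rw [arP_ofFn])]
  have e : ∀ f : {f : ZMod (2 * n) → ℤ × ℤ // (f 0 = 0 ∧ IsPoly (2 * n) f) ∧ ∀ i, D ω (f i)},
      (area (2 * n) f.1 : ℝ) ^ q = (max 1 (Pool.Agent.H924P.area (2 * n) f.1 : ℝ)) ^ q := by
    intro f
    have h1 : 1 ≤ Pool.Agent.H924P.area (2 * n) f.1 := one_le_area (by omega) f.2.1.2
    rw [max_eq_right (by exact_mod_cast h1), area_eq]
  rw [finsum_congr e]
  rfl

lemma M_eq (ν : Measure Ω) (D : Ω → ℤ × ℤ → Prop) (q : ℝ) {n : ℕ} (hn : 2 ≤ n) :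
    M ν D q n = Mp ν D (aq q) n := by
  unfold M Mp
  rw [T_eq ν D q hn, F_eq ν D (by omega)]

/-- **Main result.** -/
theorem result : (∀ β a : ℝ, IsSlow (fun n => β * Real.log n + a)) ∧
    ∃ μ : ℝ, 0 < μ ∧ Tendsto (fun n : ℕ => (c n : ℝ) ^ ((1 : ℝ) / n)) atTop (𝓝 μ) ∧
    ∀ m : ℕ, ∃ C : ℝ, 0 < C ∧
    ∀ (Ω : Type) [MeasurableSpace Ω] (ν : Measure Ω) [IsProbabilityMeasure ν]
      (D : Ω → ℤ × ℤ → Prop), IsDomain D → ∀ (S : Set ℕ) (q : ℝ), 0 ≤ q → q ≤ m →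
      -- exponents
      (∀ β β' : ℝ, (∀ δ : ℝ, 0 < δ → Meets S δ (fun n => Real.log n)) →
        (∀ᶠ n in atTop, n ∈ S → 0 < Y μ ν D n) →
        Tendsto (fun n : ℕ => Real.log (Y μ ν D n) / Real.log n) (atTop ⊓ 𝓟 S) (𝓝 β) →
        Tendsto (fun n : ℕ => Real.log (M ν D q n) / Real.log n) (atTop ⊓ 𝓟 S) (𝓝 β') →
        Tendsto (fun n : ℕ => Real.log (Y μ ν D n) / Real.log n) atTop (𝓝 β) ∧
        Tendsto (fun n : ℕ => Real.log (M ν D q n) / Real.log n) atTop (𝓝 β')) ∧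
      -- asymptotic forms
      (∀ ψ φ : ℕ → ℝ, IsSlow ψ → IsSlow φ → (∀ δ : ℝ, 0 < δ → Meets S δ (fun _ => 1)) →
        Tendsto (fun n => Y μ ν D n / Real.exp (ψ n)) (atTop ⊓ 𝓟 S) (𝓝 1) →
        Tendsto (fun n => M ν D q n / Real.exp (φ n)) (atTop ⊓ 𝓟 S) (𝓝 1) →
        Tendsto (fun n => Y μ ν D n / Real.exp (ψ n)) atTop (𝓝 1) ∧
        Tendsto (fun n => M ν D q n / Real.exp (φ n)) atTop (𝓝 1)) ∧
      -- rates
      (∀ τ δ : ℝ, 0 < τ → 0 < δ → Meets S δ (fun n => 1 + Real.log n) →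
        (∀ᶠ n in atTop, n ∈ S → 0 < Y μ ν D n ∧ |Real.log (Y μ ν D n)| ≤ τ * (1 + Real.log n)) →
        ∀ᶠ n : ℕ in atTop, 0 < F ν D n ∧
          |M ν D q (n + 1) / M ν D q n - 1| ≤ C * √((1 + τ + δ ^ 2) * (1 + Real.log n) / n) ∧
          ∀ D' : Ω → ℤ × ℤ → Prop, IsDomain D' → (∀ ω x, D' ω x → D ω x) →
            |T ν D' q (n + 1) / T ν D q (n + 1) - T ν D' q n / T ν D q n| ≤
              C * √((1 + τ + δ ^ 2) * (1 + Real.log n) / n)) := by
  refine ⟨fun β a => Q78.Z3.slow_log β a, H981.mu, H981.mu_pos, ?_, fun m => ?_⟩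
  · simp only [c_eq]
    exact H981.tendsto_root
  obtain ⟨C, hC, h⟩ := poly_ex (2 * m + 1) (kq m) (kq_nonneg m)
  refine ⟨C, hC, ?_⟩
  intro Ω _ ν _ D hD S q hq0 hqm
  obtain ⟨-, -, -, -, h5⟩ := h Ω ν D hD S
  have hfp : Fpol (kq m) (2 * m + 1) (aq q) := fun D => fr_aq m q hq0 hqm D
  obtain ⟨h1, h2, h3⟩ := h5 (aq q) hfp
  have hY : ∀ᶠ n : ℕ in atTop, Yp ν D n = Y H981.mu ν D n := by
    filter_upwards [eventually_ge_atTop 1] with n hn
    exact (Y_eq ν D hn).symm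
  have hM : ∀ᶠ n : ℕ in atTop, Mp ν D (aq q) n = M ν D q n := by
    filter_upwards [eventually_ge_atTop 2] with n hn
    exact (M_eq ν D q hn).symm
  refine ⟨?_, ?_, ?_⟩
  · intro β β' hS hp hk hk'
    obtain ⟨-, g1, g2⟩ := h1 β β' hS (by
      filter_upwards [hp, hY] with n hn hn1 hnS
      rw [hn1]
      exact hn hnS) (hk.congr' (by
      filter_upwards [hY.filter_mono inf_le_left] with n hn
      rw [hn])) (hk'.congr' (by
      filter_upwards [hM.filter_mono inf_le_left] with n hn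
      rw [hn]))
    refine ⟨g1.congr' ?_, g2.congr' ?_⟩
    · filter_upwards [hY] with n hn
      rw [hn]
    · filter_upwards [hM] with n hn
      rw [hn]
  · intro ψ φ hψ hφ hS hk hk'
    obtain ⟨g1, g2⟩ := h2 ψ φ hψ hφ hS (hk.congr' (by
      filter_upwards [hY.filter_mono inf_le_left] with n hn
      rw [hn])) (hk'.congr' (by
      filter_upwards [hM.filter_mono inf_le_left] with n hn
      rw [hn]))
    refine ⟨g1.congr' ?_, g2.congr' ?_⟩
    · filter_upwards [hY] with n hn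
      rw [hn]
    · filter_upwards [hM] with n hn
      rw [hn]
  · intro τ δ hτ hδ hS hk
    have hall := h3 τ δ hτ hδ hS (by
      filter_upwards [hk, hY] with n hn hn1 hnS
      rw [hn1]
      exact hn hnS)
    filter_upwards [hall, eventually_ge_atTop 2] with n hn hn2
    obtain ⟨g1, g2, -, g4, -, g6⟩ := hn
    refine ⟨?_, ?_, fun D' hD' hsub => ?_⟩
    · rw [F_eq ν D (by omega)]
      exact g1
    · rw [M_eq ν D q hn2, M_eq ν D q (by omega)]
      exact g4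
    · rw [T_eq ν D' q hn2, T_eq ν D' q (by omega), T_eq ν D q hn2, T_eq ν D q (by omega)]
      exact g6 D' hD' hsub (fun _ => aq q) (fun ω => hfp (D' ω)) (fun _ => measurable_const)
        (fun _ _ => le_rfl)

end Pool.Agent.Results.MP_2250b1_co.AreaSparsePerimeters
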