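import Pool.Agent.Q294.Sq4
import Pool.Agent.Q294.Sq5

/-!
Mean area of square-lattice self-avoiding polygons: `A_n p_{2n} ≤ K n^(1/2) μ^(2n)`, and power laws
of the number and of the moments of the area pass from sparse lengths, or from the partial sums,
to all lengths.
-/

namespace Pool.Agent.Results.MP_2250b1_co.AreaTauberian

open Filter Topology

/-- the number of `n`-step self-avoiding walks on `ℤ²` started at the origin -/
noncomputable def c (n : ℕ) : ℕ :=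
  Nat.card {f : Fin (n + 1) → ℤ × ℤ // f 0 = 0 ∧ Function.Injective f ∧
    ∀ i : Fin n, |(f i.succ).1 - (f i.castSucc).1| + |(f i.succ).2 - (f i.castSucc).2| = 1}

/-- a closed nearest-neighbour loop on `ℤ²` with `m` steps, rooted at the origin and oriented,
that visits no vertex twice -/
def IsLoop (m : ℕ) (f : ZMod m → ℤ × ℤ) : Prop :=
  f 0 = 0 ∧ Function.Injective f ∧
    ∀ i : ZMod m, |(f (i + 1)).1 - (f i).1| + |(f (i + 1)).2 - (f i).2| = 1

/-- the number of self-avoiding polygons of perimeter `2n` on `ℤ²` up to translation: the number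
of rooted oriented loops with `2n` steps, divided by `4n` (the choices of the starting point and
of the orientation) -/
noncomputable def p (n : ℕ) : ℝ :=
  (Nat.card {f : ZMod (2 * n) → ℤ × ℤ // IsLoop (2 * n) f} : ℝ) / (4 * (n : ℝ))

/-- the edge from `f k` to `f (k+1)` is horizontal, joins the columns `x = a` and `x = a + 1`, and
has height larger than `b`: it lies above the unit cell `[a, a+1] × [b, b+1]` -/
def Above (m : ℕ) (f : ZMod m → ℤ × ℤ) (a b : ℤ) (k : ZMod m) : Prop :=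
  (((f k).1 = a ∧ (f (k + 1)).1 = a + 1) ∨ ((f k).1 = a + 1 ∧ (f (k + 1)).1 = a)) ∧ b < (f k).2

/-- the unit cell `[a, a+1] × [b, b+1]` is enclosed by the loop: the vertical ray from the cell
upwards crosses an odd number of edges -/
def Encl (m : ℕ) (f : ZMod m → ℤ × ℤ) (c : ℤ × ℤ) : Prop :=
  Odd (Nat.card {k : ZMod m // Above m f c.1 c.2 k})

/-- the area: the number of unit cells enclosed by the loop -/
noncomputable def area (m : ℕ) (f : ZMod m → ℤ × ℤ) : ℕ := Nat.card {c : ℤ × ℤ // Encl m f c}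

/-- the mean of the `k`-th power of the area of the self-avoiding polygons of perimeter `2 n` (the
average over the rooted oriented polygons); `M 1 n` is the mean area `A_n` -/
noncomputable def M (k n : ℕ) : ℝ :=
  (∑ᶠ f ∈ {f : ZMod (2 * n) → ℤ × ℤ | IsLoop (2 * n) f}, (area (2 * n) f : ℝ) ^ k) /
    ({f : ZMod (2 * n) → ℤ × ℤ | IsLoop (2 * n) f}.ncard : ℝ)

lemma c_eq (n : ℕ) : (c n : ℝ) = H981.cr' n := by
  rw [H981.cr'_eq]
  unfold c H981.C H981.IsSAW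
  congr 1
  apply Nat.card_congr
  apply Equiv.subtypeEquivRight
  intro f
  constructor
  · rintro ⟨h0, h1, h2⟩
    exact ⟨h0, h2, h1⟩
  · rintro ⟨h0, h2, h1⟩
    exact ⟨h0, h1, h2⟩

/-- **Theorem.** Let `μ` be the connective constant of `ℤ²`, `p_{2n}` the number of self-avoiding
polygons of perimeter `2n` up to translation, `A_n = M_1(n)` their mean area and `M_k(n)` the mean
of the `k`-th power of the area, `k ≥ 1`.
(1) There is `K` with `A_n p_{2n} ≤ K √n μ^(2n)` for all `n ≥ 2`.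
(2) Let `S` be a set of integers that meets `[n, n + δ √n]` for every `δ > 0` and all large `n`, and
let `a, b > 0` and `β, θ` be real. If `p_{2n} ~ a n^β μ^(2n)` and `M_k(n) ~ b n^θ` along `n ∈ S`,
then both hold along all `n`.
(3) Let `a, b > 0` and `β, θ, s, r` be real. If
`∑_{2≤j≤n} p_{2j} μ^(-2j) = s + a ∫_1^n t^β dt + o(n^(β+1/2))` and
`∑_{2≤j≤n} p_{2j} M_k(j) μ^(-2j) = r + b ∫_1^n t^(β+θ) dt + o(n^(β+θ+1/2))`,
then `p_{2n} ~ a n^β μ^(2n)` and `M_k(n) ~ (b/a) n^θ`. -/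
theorem result : ∃ μ : ℝ, 0 < μ ∧
    Tendsto (fun n : ℕ => (c n : ℝ) ^ ((1:ℝ) / (n : ℝ))) atTop (𝓝 μ) ∧
    (∃ K : ℝ, ∀ n : ℕ, 2 ≤ n → M 1 n * p n ≤ K * √n * μ ^ (2 * n)) ∧
    (∀ S : Set ℕ,
      (∀ δ : ℝ, 0 < δ → ∀ᶠ n : ℕ in atTop, ∃ k ∈ S, n ≤ k ∧ (k : ℝ) ≤ n + δ * √n) →
      ∀ (k : ℕ) (a b β θ : ℝ), 1 ≤ k → 0 < a → 0 < b →
      Tendsto (fun n : ℕ => p n / ((n : ℝ) ^ β * μ ^ (2 * n))) (atTop ⊓ 𝓟 S) (𝓝 a) →
      Tendsto (fun n : ℕ => M k n / (n : ℝ) ^ θ) (atTop ⊓ 𝓟 S) (𝓝 b) →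
      Tendsto (fun n : ℕ => p n / ((n : ℝ) ^ β * μ ^ (2 * n))) atTop (𝓝 a) ∧
        Tendsto (fun n : ℕ => M k n / (n : ℝ) ^ θ) atTop (𝓝 b)) ∧
    (∀ (k : ℕ) (a b β θ s r : ℝ), 1 ≤ k → 0 < a → 0 < b →
      Tendsto (fun n : ℕ => (∑ j ∈ Finset.Icc 2 n, p j / μ ^ (2 * j) - s -
        a * ∫ t in (1 : ℝ)..(n : ℝ), t ^ β) / (n : ℝ) ^ (β + 1 / 2)) atTop (𝓝 0) →
      Tendsto (fun n : ℕ => (∑ j ∈ Finset.Icc 2 n, p j * M k j / μ ^ (2 * j) - r -
        b * ∫ t in (1 : ℝ)..(n : ℝ), t ^ (β + θ)) / (n : ℝ) ^ (β + θ + 1 / 2)) atTop (𝓝 0) →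
      Tendsto (fun n : ℕ => p n / ((n : ℝ) ^ β * μ ^ (2 * n))) atTop (𝓝 a) ∧
        Tendsto (fun n : ℕ => M k n / (n : ℝ) ^ θ) atTop (𝓝 (b / a))) := by
  refine ⟨H981.mu, H981.mu_pos, ?_, ?_, ?_, ?_⟩
  · simp only [c_eq]
    exact H981.tendsto_root
  · obtain ⟨C, hC⟩ := Q294.Sq4.area_point
    refine ⟨C, fun n hn => ?_⟩
    have h := hC n hn
    unfold Q294.Sq3.zp at h
    rw [if_neg (by omega), div_le_iff₀ (pow_pos H981.mu_pos _)] at h
    have e : M 1 n = Pool.Agent.H739K.MA n := by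
      rw [Pool.Agent.H739K.MOM.MA_eq n hn]
      rfl
    have e2 : p n = H981.PP n := rfl
    rw [e, e2, mul_comm]
    exact h
  · intro S hS k a b β θ hk ha hb h1 h2
    exact Q294.Sq5.sparse (fun n => M k n) (Q294.Sq3.seq_area k hk) S hS a b β θ ha hb h1 h2
  · intro k a b β θ s r hk ha hb h1 h2
    exact Q294.Sq5.tauber (fun n => M k n) (Q294.Sq3.seq_area k hk) a b β θ s r ha hb h1 h2

end Pool.Agent.Results.MP_2250b1_co.AreaTauberian
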